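import Pool.Agent.Helper11.S3.Sheet
open MeasureTheory Metric Set Filter Topology Real
open scoped ENNReal NNReal

/-!
# S3, row ODE
-/

namespace H11ST
namespace S3

/-- a function whose increments are at most quadratic does not increase -/
theorem ode_noninc {ψ : ℝ → ℝ} {a c M : ℝ} (hac : a ≤ c)
    (h : ∀ ρ b, a ≤ ρ → ρ ≤ b → b ≤ c → ψ b - ψ ρ ≤ M * (b - ρ) ^ 2) : ψ c ≤ ψ a := by
  have key : ∀ n : ℕ, 1 ≤ n → ψ c - ψ a ≤ M * (c - a) ^ 2 / n := by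
    intro n hn
    have hn0 : (0 : ℝ) < n := by exact_mod_cast hn
    set δ : ℝ := (c - a) / n with hδ
    have hδ0 : 0 ≤ δ := div_nonneg (by linarith) hn0.le
    have hnδ : n * δ = c - a := by rw [hδ]; field_simp
    have ind : ∀ i : ℕ, i ≤ n → ψ (a + i * δ) - ψ a ≤ i * (M * δ ^ 2) := by
      intro i
      induction i with
      | zero => intro _; simp
      | succ i ih =>
        intro hi
        have h1 := ih (by omega)
        have hi' : ((i + 1 : ℕ) : ℝ) ≤ n := by exact_mod_cast hi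
        push_cast at hi'
        have hi0 : (0 : ℝ) ≤ i := Nat.cast_nonneg i
        have h2 := h (a + i * δ) (a + ((i + 1 : ℕ) : ℝ) * δ) (by nlinarith) (by push_cast; nlinarith)
          (by push_cast; nlinarith)
        have h3 : a + ((i + 1 : ℕ) : ℝ) * δ - (a + i * δ) = δ := by push_cast; ring
        rw [h3] at h2
        push_cast
        push_cast at h2
        linarith
    have h1 := ind n le_rfl
    rw [hnδ] at h1
    have h2 : a + (c - a) = c := by ring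
    rw [h2] at h1
    refine h1.trans (le_of_eq ?_)
    rw [hδ]; field_simp
  by_contra hcon
  push Not at hcon
  obtain ⟨n, hn⟩ := exists_nat_gt (|M * (c - a) ^ 2| / (ψ c - ψ a))
  have hpos : 0 < ψ c - ψ a := by linarith
  have hn1 : 1 ≤ n := by
    by_contra h0
    have : n = 0 := by omega
    rw [this] at hn
    have : 0 ≤ |M * (c - a) ^ 2| / (ψ c - ψ a) := by positivity
    push_cast at hn
    linarith
  have hn0 : (0 : ℝ) < n := by exact_mod_cast hn1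
  have h1 := key n hn1
  rw [div_lt_iff₀ hpos] at hn
  have h2 : M * (c - a) ^ 2 / n < ψ c - ψ a := by
    rw [div_lt_iff₀ hn0]
    have := le_abs_self (M * (c - a) ^ 2)
    linarith
  linarith

theorem ode : S3_ODE := by
  intro H a r K B ha har hK hHB hgi
  have hr : 0 < r := ha.trans har
  set M : ℝ := 4 * r ^ 2 / (K ^ 2 * a ^ 4) * (1 / a ^ 2 + B ^ 2 / (K ^ 2 * a ^ 4)) with hM
  have hstep : ∀ ρ b, a ≤ ρ → ρ ≤ b → b < r →
      (1 / H b ^ 2 - 1 / (K ^ 2 * b ^ 2)) - (1 / H ρ ^ 2 - 1 / (K ^ 2 * ρ ^ 2)) ≤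
        M * (b - ρ) ^ 2 := by
    intro ρ b h1 h2 h3
    have hρ : 0 < ρ := ha.trans_le h1
    have hb : 0 < b := hρ.trans_le h2
    obtain ⟨p1, p2⟩ := hHB ρ h1 (h2.trans_lt h3)
    obtain ⟨q1, -⟩ := hHB b (h1.trans h2) h3
    have hg := hgi ρ b h1 h2 h3
    set h := H ρ ^ 2 with hh
    set h' := H b ^ 2 with hh'
    have hp : 0 < h := by positivity
    have hp' : 0 < h' := by positivity
    have hhB : h ≤ B ^ 2 := by rw [hh]; exact pow_le_pow_left₀ p1.le p2 2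
    set D : ℝ := b ^ 2 - ρ ^ 2 with hD
    have hD0 : 0 ≤ D := by rw [hD]; nlinarith
    set δ : ℝ := h * D / (K ^ 2 * b ^ 4) with hδ
    have hδ0 : 0 ≤ δ := by positivity
    have hge : h * (1 + δ) ≤ h' := by
      refine le_trans (le_of_eq ?_) hg
      rw [hδ]; field_simp
    have e1 : 1 / h' ≤ 1 / (h * (1 + δ)) := one_div_le_one_div_of_le (by positivity) hge
    have e2 : 1 / (h * (1 + δ)) ≤ (1 - δ + δ ^ 2) / h := by
      rw [div_le_div_iff₀ (by positivity) hp]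
      have : 0 ≤ h * δ ^ 3 := by positivity
      nlinarith
    have e3 : (1 - δ + δ ^ 2) / h = 1 / h - D / (K ^ 2 * b ^ 4) + h * D ^ 2 / (K ^ 4 * b ^ 8) := by
      rw [hδ]; field_simp
    have e4 : 1 / (K ^ 2 * ρ ^ 2) - 1 / (K ^ 2 * b ^ 2) = D / (K ^ 2 * ρ ^ 2 * b ^ 2) := by
      rw [hD]; field_simp
    have e5 : D / (K ^ 2 * ρ ^ 2 * b ^ 2) - D / (K ^ 2 * b ^ 4) = D ^ 2 / (K ^ 2 * ρ ^ 2 * b ^ 4) := by
      rw [hD]; field_simp
    have e6 : D ^ 2 / (K ^ 2 * ρ ^ 2 * b ^ 4) ≤ D ^ 2 / (K ^ 2 * a ^ 2 * a ^ 4) := by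
      have ha2 : a ^ 2 ≤ ρ ^ 2 := pow_le_pow_left₀ ha.le h1 2
      have ha4 : a ^ 4 ≤ b ^ 4 := pow_le_pow_left₀ ha.le (h1.trans h2) 4
      gcongr
    have e7 : h * D ^ 2 / (K ^ 4 * b ^ 8) ≤ B ^ 2 * D ^ 2 / (K ^ 4 * a ^ 8) := by
      have ha8 : a ^ 8 ≤ b ^ 8 := pow_le_pow_left₀ ha.le (h1.trans h2) 8
      gcongr
    have e8 : D ^ 2 ≤ 4 * r ^ 2 * (b - ρ) ^ 2 := by
      have : D = (b - ρ) * (b + ρ) := by rw [hD]; ring
      rw [this, mul_pow]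
      have h5 : (b + ρ) ^ 2 ≤ 4 * r ^ 2 := by nlinarith
      nlinarith [sq_nonneg (b - ρ)]
    have e9 : M * (b - ρ) ^ 2 = (4 * r ^ 2 * (b - ρ) ^ 2) / (K ^ 2 * a ^ 2 * a ^ 4) +
        B ^ 2 * (4 * r ^ 2 * (b - ρ) ^ 2) / (K ^ 4 * a ^ 8) := by
      rw [hM]; field_simp
    rw [e9]
    have e10 : D ^ 2 / (K ^ 2 * a ^ 2 * a ^ 4) ≤
        (4 * r ^ 2 * (b - ρ) ^ 2) / (K ^ 2 * a ^ 2 * a ^ 4) := by gcongr
    have e11 : B ^ 2 * D ^ 2 / (K ^ 4 * a ^ 8) ≤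
        B ^ 2 * (4 * r ^ 2 * (b - ρ) ^ 2) / (K ^ 4 * a ^ 8) := by gcongr
    linarith
  have hc : ∀ c, a < c → c < r → H a ^ 2 * (c ^ 2 - a ^ 2) ≤ K ^ 2 * a ^ 2 * r ^ 2 := by
    intro c h1 h2
    have h3 := ode_noninc (ψ := fun ρ => 1 / H ρ ^ 2 - 1 / (K ^ 2 * ρ ^ 2)) (M := M) h1.le
      (fun ρ b h4 h5 h6 => hstep ρ b h4 h5 (h6.trans_lt h2))
    have hc0 : 0 < c := ha.trans h1
    have hHa := (hHB a le_rfl har).1
    have hHc := (hHB c h1.le h2).1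
    have h4 : 0 < 1 / H c ^ 2 := by positivity
    have h5 : 1 / (K ^ 2 * a ^ 2) - 1 / (K ^ 2 * c ^ 2) ≤ 1 / H a ^ 2 := by linarith
    have h6 : 1 / (K ^ 2 * a ^ 2) - 1 / (K ^ 2 * c ^ 2) = (c ^ 2 - a ^ 2) / (K ^ 2 * a ^ 2 * c ^ 2) := by
      field_simp
    rw [h6, div_le_div_iff₀ (by positivity) (by positivity)] at h5
    have h7 : K ^ 2 * a ^ 2 * c ^ 2 ≤ K ^ 2 * a ^ 2 * r ^ 2 := by
      have : c ^ 2 ≤ r ^ 2 := pow_le_pow_left₀ hc0.le h2.le 2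
      gcongr
    linarith
  have hcont : Tendsto (fun c : ℝ => H a ^ 2 * (c ^ 2 - a ^ 2)) (𝓝[<] r)
      (𝓝 (H a ^ 2 * (r ^ 2 - a ^ 2))) := by
    have : Continuous fun c : ℝ => H a ^ 2 * (c ^ 2 - a ^ 2) := by fun_prop
    exact this.continuousWithinAt.tendsto
  refine le_of_tendsto hcont ?_
  filter_upwards [Ioo_mem_nhdsLT har] with c hc'
  exact hc c hc'.1 hc'.2

end S3
end H11ST
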