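import Pool.Agent.Helper11.S3.Fin
import Pool.Agent.Helper11.S3.Ode
import Pool.Agent.Helper80.S3.ARC
import Pool.Agent.Helper13.S3.MER
import Pool.Agent.Helper24.S3.AX
import Pool.Agent.Helper77.S3.NUM
import Pool.Agent.Helper2.S3.LON

/-!
# S3: assembly
-/

namespace H11ST
namespace S3

/-- the explicit bound in space -/
theorem upper3 {t : ℝ} (h0 : 0 < t) (h1 : t < 1) :
    Nloc 3 t ≤ ((⌊67 / (4 * (1 - t))⌋₊ - 2 : ℕ) : ℕ∞) :=
  fin (ax (mer arc lon)) num ode h0 h1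

end S3
end H11ST
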