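import Pool.Agent.Helper11.S3.Sheet
import Pool.Agent.H11ST.Main
import Pool.Agent.Helper49.ST.Upper
open MeasureTheory Metric Set Filter Topology Real
open scoped ENNReal NNReal

/-!
# S3, row FIN
-/

namespace H11ST
namespace S3

/-- the number of points on a sphere, from the length inside -/
theorem fin_count
    (hAX : ∀ (x : E 3) (ρ : ℝ), 0 < ρ → ∀ m : ℕ, 1 ≤ m → ∀ P : Finset (E 3),
      (∀ p ∈ P, p ∈ sphere x ρ) → ∃ (D : Set (E 3)) (c : ℝ), Con x ρ D c ∧ (∀ p ∈ P, p ∈ D) ∧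
      c ≤ ρ * (π * (m + 8165 / 10000 * P.card / (2 * m))))
    (hNUM : S3_NUM) {A S : Set (E 3)} {x : E 3} {r : ℝ} (L : LocAdm A S x r) (hA : IsClosed A)
    {ρ : ℝ} (h0 : 0 < ρ) (hρ : ρ < r) {n : ℕ} (hn : 7 ≤ n) (hcard : (S ∩ sphere x ρ).encard = n) :
    len S x ρ ^ 2 ≤ ρ ^ 2 * (67 / 4 * n) := by
  classical
  have hfin : (S ∩ sphere x ρ).Finite := Set.finite_of_encard_eq_coe hcard
  set P := hfin.toFinset with hP
  have hPc : P.card = n := by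
    have := hfin.encard_eq_coe_toFinset_card
    rw [hcard] at this
    exact_mod_cast this.symm
  have hPmem : ∀ p, p ∈ P ↔ p ∈ S ∩ sphere x ρ := fun p => by simp [hP]
  obtain ⟨m, hm, hnum⟩ := hNUM n hn
  obtain ⟨D, c, hD, hPD, hc⟩ := hAX x ρ h0 m hm P (fun p hp => ((hPmem p).1 hp).2)
  rw [hPc] at hc
  obtain ⟨z, hz⟩ := Finset.card_pos.1 (by rw [hPc]; omega : 0 < P.card)
  have h1 : len S x ρ ≤ c := L.len_comp hA hρ hD.closed hD.conn hD.sub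
    (fun z hz => hPD z ((hPmem z).2 hz)) ⟨z, (hPmem z).1 hz⟩ hD.nonneg hD.len
  have h2 := len_nonneg S x ρ
  have h3 : len S x ρ ≤ ρ * (π * (m + 8165 / 10000 * n / (2 * m))) := h1.trans hc
  calc len S x ρ ^ 2 ≤ (ρ * (π * (m + 8165 / 10000 * n / (2 * m)))) ^ 2 :=
        pow_le_pow_left₀ h2 h3 2
    _ = ρ ^ 2 * (π * (m + 8165 / 10000 * n / (2 * m))) ^ 2 := by ring
    _ ≤ _ := mul_le_mul_of_nonneg_left hnum (sq_nonneg _)

/-- the explicit bound in space -/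
theorem fin
    (hAX : ∀ (x : E 3) (ρ : ℝ), 0 < ρ → ∀ m : ℕ, 1 ≤ m → ∀ P : Finset (E 3),
      (∀ p ∈ P, p ∈ sphere x ρ) → ∃ (D : Set (E 3)) (c : ℝ), Con x ρ D c ∧ (∀ p ∈ P, p ∈ D) ∧
      c ≤ ρ * (π * (m + 8165 / 10000 * P.card / (2 * m))))
    (hNUM : S3_NUM) (hODE : S3_ODE) {t : ℝ} (ht0 : 0 < t) (ht1 : t < 1) :
    Nloc 3 t ≤ ((⌊67 / (4 * (1 - t))⌋₊ - 2 : ℕ) : ℕ∞) := by
  have h1t : 0 < 1 - t := sub_pos.2 ht1
  refine Nloc_le fun A S x r hL' Y hY hb hT => ?_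
  suffices h : ((Y.card + 2 : ℕ) : ℝ) ≤ 67 / (4 * (1 - t)) by
    have := Nat.le_floor h
    omega
  rw [le_div_iff₀ (by positivity)]
  have L := hL'.adm
  have hA := hL'.compact.isClosed
  rcases Nat.lt_or_ge (Y.card + 2) 7 with h7 | h7
  · have : ((Y.card + 2 : ℕ) : ℝ) ≤ 6 := by exact_mod_cast (by omega : Y.card + 2 ≤ 6)
    have h0 : (0 : ℝ) ≤ ((Y.card + 2 : ℕ) : ℝ) := Nat.cast_nonneg _
    nlinarith
  set k : ℕ := Y.card + 2 with hk
  have hr := L.rpos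
  have htr0 : 0 < t * r := mul_pos ht0 hr
  obtain ⟨y, hy⟩ := hY
  have G := gi_at (by omega) (gi 3 (Pool.Agent.Helper73.ST.core 3)) L hA (hT y hy)
  have hcount : ∀ ρ, t * r ≤ ρ → ρ < r → ((k : ℕ) : ℕ∞) ≤ (S ∩ sphere x ρ).encard :=
    fun ρ h1 h2 => L.sphere_count hA Y ⟨y, hy⟩ hb hT h1 h2
  have hst : √t * √t = t := Real.mul_self_sqrt ht0.le
  have hs0 : 0 < √t := Real.sqrt_pos.2 ht0
  have hs1 : √t < 1 := by nlinarith
  have hts : t < √t := by nlinarith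
  set a : ℝ := √t * r with ha
  have hta : t * r < a := by rw [ha]; nlinarith
  have har : a < r := by rw [ha]; nlinarith
  have ha0 : 0 < a := htr0.trans hta
  have ha2 : a ^ 2 = t * r ^ 2 := by rw [ha, mul_pow, sq, hst]
  have hkpos : (0 : ℝ) < k := by exact_mod_cast (by omega : 0 < k)
  have hlow : ∀ ρ, t * r ≤ ρ → ρ < r → (k : ℝ) ^ 2 * (ρ ^ 2 - (t * r) ^ 2) ≤ len S x ρ ^ 2 := by
    intro ρ h1 h2
    have h3 := G (t * r) ρ htr0.le h1 h2 k (fun s hs => hcount s hs.1.le (hs.2.trans h2))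
    have h4 := sq_nonneg (len S x (t * r))
    linarith
  have hmono : ∀ ρ b, ρ ≤ b → b ≤ r → len S x ρ ≤ len S x b := by
    intro ρ b h1 h2
    have := L.len_growth h1 h2 0 (fun _ _ => by simp)
    simpa using this
  have hpos : ∀ ρ, a ≤ ρ → ρ < r → 0 < len S x ρ ∧ len S x ρ ≤ len S x r := by
    intro ρ h1 h2
    refine ⟨?_, hmono ρ r h2.le le_rfl⟩
    have h3 := hlow ρ (hta.le.trans h1) h2
    have h4 : 0 < (k : ℝ) ^ 2 * (ρ ^ 2 - (t * r) ^ 2) := by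
      have : (t * r) ^ 2 < ρ ^ 2 := pow_lt_pow_left₀ (hta.trans_le h1) htr0.le (by norm_num)
      have : 0 < ρ ^ 2 - (t * r) ^ 2 := by linarith
      positivity
    have h5 := len_nonneg S x ρ
    rcases h5.lt_or_eq with h6 | h6
    · exact h6
    · rw [← h6] at h3
      norm_num at h3
      linarith
  have hODE' := hODE (len S x) a r (67 / 4) (len S x r) ha0 har (by norm_num) hpos (by
    intro ρ b h1 h2 h3
    have hρ0 : 0 < ρ := ha0.trans_le h1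
    have hb0 : 0 < b := hρ0.trans_le h2
    set M : ℝ := len S x ρ ^ 2 / (67 / 4 * b ^ 2) with hM
    have hM0 : 0 ≤ M := by positivity
    have hc : ∀ s ∈ Ioo ρ b, ((⌈M⌉₊ : ℕ) : ℕ∞) ≤ (S ∩ sphere x s).encard := by
      intro s hs
      have hs0 : 0 < s := hρ0.trans hs.1
      have hsr : s < r := hs.2.trans h3
      by_cases htop : (S ∩ sphere x s).encard = ⊤
      · rw [htop]; exact le_top
      obtain ⟨n, hn⟩ := ENat.ne_top_iff_exists.1 htop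
      have h4 := hcount s (hta.le.trans (h1.trans hs.1.le)) hsr
      rw [← hn] at h4
      have h5 : k ≤ n := by exact_mod_cast h4
      have h6 := fin_count hAX hNUM L hA hs0 hsr (by omega : 7 ≤ n) hn.symm
      have h7 := hmono ρ s hs.1.le hsr.le
      have h8 : len S x ρ ^ 2 ≤ len S x s ^ 2 := pow_le_pow_left₀ (len_nonneg _ _ _) h7 2
      have h9 : s ^ 2 ≤ b ^ 2 := pow_le_pow_left₀ hs0.le hs.2.le 2
      rw [← hn]
      have h10 : M ≤ n := by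
        rw [hM, div_le_iff₀ (by positivity)]
        have h11 : s ^ 2 * (67 / 4 * (n : ℝ)) ≤ b ^ 2 * (67 / 4 * n) := by gcongr
        linarith
      exact_mod_cast Nat.ceil_le.2 h10
    have h4 := G ρ b hρ0.le h2 h3 _ hc
    have h5 : M ≤ (⌈M⌉₊ : ℝ) := Nat.le_ceil M
    have h6 : M ^ 2 ≤ (⌈M⌉₊ : ℝ) ^ 2 := pow_le_pow_left₀ hM0 h5 2
    have h7 : 0 ≤ b ^ 2 - ρ ^ 2 := by nlinarith
    have h8 := mul_le_mul_of_nonneg_right h6 h7
    linarith)
  have h1 := hlow a hta.le har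
  rw [ha2] at h1 hODE'
  have h2 : t * r ^ 2 - (t * r) ^ 2 = t * (1 - t) * r ^ 2 := by ring
  have h3 : r ^ 2 - t * r ^ 2 = (1 - t) * r ^ 2 := by ring
  rw [h2] at h1
  rw [h3] at hODE'
  have h4 : (k : ℝ) ^ 2 * (t * (1 - t) * r ^ 2) * ((1 - t) * r ^ 2) ≤
      (67 / 4) ^ 2 * (t * r ^ 2) * r ^ 2 :=
    le_trans (mul_le_mul_of_nonneg_right h1 (by positivity)) hODE'
  have h5 : ((k : ℝ) * (4 * (1 - t))) ^ 2 * (t * r ^ 4) ≤ 67 ^ 2 * (t * r ^ 4) := by nlinarith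
  have h6 := le_of_mul_le_mul_right h5 (by positivity)
  nlinarith [mul_pos hkpos h1t]

end S3
end H11ST
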