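import Pool.Agent.H11ST.Asm
import Pool.Agent.H11ST.Star
open MeasureTheory Metric Set Filter Topology Real
open scoped ENNReal NNReal

/-!
# S3: `N_3(t) ≤ 67 / (4 (1 - t)) - 2` for all `0 < t < 1` (so `N_3(1/2) ≤ 31`)
-/

namespace H11ST
namespace S3

/-- a connected set of length `≤ c` in the closed ball -/
structure Con (x : E 3) (ρ : ℝ) (D : Set (E 3)) (c : ℝ) : Prop where
  closed : IsClosed D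
  conn : IsPreconnected D
  sub : D ⊆ closedBall x ρ
  nonneg : 0 ≤ c
  len : μH[1] D ≤ ENNReal.ofReal c

/-- (ARC) a half great circle: `{x + ρ (sin s u + cos s g) : 0 ≤ s ≤ π}` is compact, connected, of
length `≤ π ρ` (Lipschitz image of `[0, π]`) and contains both poles `x ± ρ g` -/
def S3_ARC : Prop := ∀ (x : E 3) (ρ : ℝ), 0 < ρ → ∀ (u g : E 3), ‖u‖ = 1 → ‖g‖ = 1 →
  inner ℝ u g = (0 : ℝ) →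
  Con x ρ ((fun s : ℝ => x + ρ • (sin s • u + cos s • g)) '' Icc 0 π) (π * ρ)

/-- (LON) longitude: a point of the sphere has the form
`x + r (cos φ e + sin φ f) + z g`, `r = √(ρ ^ 2 - z ^ 2)`, and `φ` lies between two consecutive
multiples of `π / m`, so for the even one (`j = 0`) and the odd one (`j = 1`) there are points
`q j = x + r (cos ψ e + sin ψ f) + z g`, `ψ = (2 i + j) π / m`, `i < m`, with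
`dist p (q 0) + dist p (q 1) ≤ r π / m` (`‖chord‖ ≤ r |φ - ψ|`) -/
def S3_LON : Prop := ∀ (x : E 3) (ρ : ℝ), 0 < ρ → ∀ (e f g : E 3), ‖e‖ = 1 → ‖f‖ = 1 → ‖g‖ = 1 →
  inner ℝ e f = (0 : ℝ) → inner ℝ e g = (0 : ℝ) → inner ℝ f g = (0 : ℝ) → ∀ m : ℕ, 1 ≤ m →
  ∀ p ∈ sphere x ρ, ∃ (i : Fin 2 → ℕ) (s : ℝ), (∀ j, i j < m) ∧ 0 ≤ s ∧ s ≤ π ∧
    ∑ j : Fin 2, dist p (x + ρ • (sin s • (cos ((2 * i j + (j : ℕ)) * (π / m)) • e +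
      sin ((2 * i j + (j : ℕ)) * (π / m)) • f) + cos s • g)) ≤
      √(ρ ^ 2 - inner ℝ (p - x) g ^ 2) * (π / m)

/-- (MER) `m` half great circles (all `j = 0` or all `j = 1` in LON) and the chords; the better
choice of `j` -/
def S3_MER : Prop := S3_ARC → S3_LON → ∀ (x : E 3) (ρ : ℝ), 0 < ρ → ∀ (e f g : E 3), ‖e‖ = 1 →
  ‖f‖ = 1 → ‖g‖ = 1 → inner ℝ e f = (0 : ℝ) → inner ℝ e g = (0 : ℝ) → inner ℝ f g = (0 : ℝ) →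
  ∀ m : ℕ, 1 ≤ m → ∀ P : Finset (E 3), (∀ p ∈ P, p ∈ sphere x ρ) → ∃ (D : Set (E 3)) (c : ℝ),
  Con x ρ D c ∧ (∀ p ∈ P, p ∈ D) ∧
  c ≤ π * ρ * m + π / (2 * m) * ∑ p ∈ P, √(ρ ^ 2 - inner ℝ (p - x) g ^ 2)

/-- (AX) the best of the three coordinate axes: `∑ over the axes of √(1 - p_i ^ 2) ≤ √6` -/
def S3_AX : Prop := (∀ (x : E 3) (ρ : ℝ), 0 < ρ → ∀ (e f g : E 3), ‖e‖ = 1 →
  ‖f‖ = 1 → ‖g‖ = 1 → inner ℝ e f = (0 : ℝ) → inner ℝ e g = (0 : ℝ) → inner ℝ f g = (0 : ℝ) →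
  ∀ m : ℕ, 1 ≤ m → ∀ P : Finset (E 3), (∀ p ∈ P, p ∈ sphere x ρ) → ∃ (D : Set (E 3)) (c : ℝ),
  Con x ρ D c ∧ (∀ p ∈ P, p ∈ D) ∧
  c ≤ π * ρ * m + π / (2 * m) * ∑ p ∈ P, √(ρ ^ 2 - inner ℝ (p - x) g ^ 2)) →
  ∀ (x : E 3) (ρ : ℝ), 0 < ρ → ∀ m : ℕ, 1 ≤ m → ∀ P : Finset (E 3), (∀ p ∈ P, p ∈ sphere x ρ) →
  ∃ (D : Set (E 3)) (c : ℝ), Con x ρ D c ∧ (∀ p ∈ P, p ∈ D) ∧
  c ≤ ρ * (π * (m + 8165 / 10000 * P.card / (2 * m)))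

/-- (NUM) `n ≤ 30`: cases; `n > 30`: `m` with `|m - s| ≤ 1 / 2`, `s ^ 2 = .8165 n / 2` -/
def S3_NUM : Prop := ∀ n : ℕ, 7 ≤ n → ∃ m : ℕ, 1 ≤ m ∧
  (π * (m + 8165 / 10000 * n / (2 * m))) ^ 2 ≤ 67 / 4 * n

/-- (ODE) `ψ = 1 / H ^ 2 - 1 / (K ^ 2 ρ ^ 2)` satisfies `ψ b - ψ ρ ≤ M (b - ρ) ^ 2`, so it does not
increase -/
def S3_ODE : Prop := ∀ (H : ℝ → ℝ) (a r K B : ℝ), 0 < a → a < r → 0 < K →
  (∀ ρ, a ≤ ρ → ρ < r → 0 < H ρ ∧ H ρ ≤ B) →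
  (∀ ρ b, a ≤ ρ → ρ ≤ b → b < r →
    H ρ ^ 2 + (H ρ ^ 2 / (K * b ^ 2)) ^ 2 * (b ^ 2 - ρ ^ 2) ≤ H b ^ 2) →
  H a ^ 2 * (r ^ 2 - a ^ 2) ≤ K ^ 2 * a ^ 2 * r ^ 2

end S3
end H11ST
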